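import Pool.Agent.H16.TK.Stmt2

/-!
Connectivity inside the universes is preserved at rank `om`.
-/

set_option autoImplicit false

open Set

namespace Pool.Agent.TK

variable {C : Type}

lemma ctr_mem_zip {a a' : List ℕ} (hl : a.length = a'.length) {z' : ℕ} (hz : z' ∈ a') :
    ∃ z, z ∈ a ∧ (z, z') ∈ a.zip a' := by
  have h1 : (a.zip a').map Prod.snd = a' := List.map_snd_zip (le_of_eq hl.symm)
  rw [← h1] at hz
  obtain ⟨⟨z, w⟩, hw, rfl⟩ := List.mem_map.1 hz
  exact ⟨z, (List.of_mem_zip hw).1, hw⟩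

lemma ctr_not_mem {M M' : St C} {p : List (ℕ × ℕ)} (h : PI M M' p) {a a' : List ℕ}
    (hl : a.length = a'.length) (hz : ∀ z ∈ a.zip a', z ∈ p) {u u' : ℕ} (hu : (u, u') ∈ p)
    (hua : u ∉ a) : u' ∉ a' := by
  intro hu'
  obtain ⟨z, hza, hzz⟩ := ctr_mem_zip hl hu'
  have h1 : u = z := (h.1 _ hu _ (hz _ hzz)).2 rfl
  exact hua (by rw [h1]; exact hza)

theorem pf_CTR {C : Type} : CTR C := by
  intro M M' U U' p a a' u u' v v' hbf hl hz hu hv hu' hv' hC
  have key : ∀ x : ℕ, Relation.ReflTransGen (fun x y => M.1 x y = true ∧ y ∉ Uᶜ ∪ ms a) x v →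
      ∃ n : ℕ, ∀ (q : List (ℕ × ℕ)) (x' : ℕ), x ∉ Uᶜ ∪ ms a →
        bf M M' U U' (Rk.sucN n Rk.zero) q → (∀ z ∈ a.zip a', z ∈ q) → (x, x') ∈ q →
        (v, v') ∈ q → x' ∈ U' → Conn M' (U'ᶜ ∪ ms a') x' v' := by
    intro x hx
    have nin : ∀ (q : List (ℕ × ℕ)) (y y' : ℕ), PI M M' q → (∀ z ∈ a.zip a', z ∈ q) →
        (y, y') ∈ q → y ∉ Uᶜ ∪ ms a → y' ∈ U' → y' ∉ U'ᶜ ∪ ms a' := by
      intro q y y' hq hzq hy hyA hyU hy'
      rcases hy' with h | h
      · exact h hyU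
      · exact ctr_not_mem hq hl hzq hy (fun h' => hyA (Or.inr h')) h
    induction hx using Relation.ReflTransGen.head_induction_on with
    | refl =>
      refine ⟨0, ?_⟩
      intro q x' hxA hq hzq hxq hvq hxU
      have hPI : PI M M' q := bf_PI hq
      have h1 : x' = v' := (hPI.1 _ hxq _ hvq).1 rfl
      subst h1
      exact Conn.refl (nin q _ _ hPI hzq hxq hxA hxU)
    | head hs hb ih =>
      rename_i b c
      obtain ⟨n, ih⟩ := ih
      refine ⟨n + 1, ?_⟩
      intro q x' hxA hq hzq hxq hvq hxU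
      have hPI : PI M M' q := bf_PI hq
      have hcU : c ∈ U := by
        by_contra h
        exact hs.2 (Or.inl h)
      obtain ⟨c', hc', hbf'⟩ := (hq 0).2.1 c hcU
      have h1 : Conn M' (U'ᶜ ∪ ms a') c' v' :=
        ih ((c, c') :: q) c' hs.2 hbf' (fun z hz => List.mem_cons_of_mem _ (hzq z hz))
          List.mem_cons_self (List.mem_cons_of_mem _ hvq) hc'
      have hE : M'.1 x' c' = true := by
        have := (bf_PI hbf').2.1 (b, x') (List.mem_cons_of_mem _ hxq) (c, c') List.mem_cons_self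
        rw [← this]
        exact hs.1
      exact (Conn.single (nin q _ _ hPI hzq hxq hxA hxU) hE h1.not_left).trans h1
  obtain ⟨n, hn⟩ := key u hC.2
  exact hn p u' hC.1 (RLe.lim' (C := C) n Rk.zero _ _ _ _ _ hbf) hz hu hv hu'

end Pool.Agent.TK
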