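import Pool.Agent.H34.TK.CTR

/-!
Passing from tuples to components.
-/

set_option autoImplicit false

open Set

namespace Pool.Agent.TK

variable {C : Type}

/-- a path inside a component contained in `U` stays in `U` -/
lemma rel_inside {M : St C} {A U : Set ℕ} {v x : ℕ} (hU : cp M A v ⊆ U) (h : Conn M A v x) :
    Conn M (Uᶜ ∪ A) v x := by
  obtain ⟨h1, h2⟩ := h
  have nin : ∀ y, y ∈ cp M A v → y ∉ Uᶜ ∪ A := by
    rintro y hy (h | h)
    · exact h (hU hy)
    · exact Conn.not_right hy h
  induction h2 with
  | refl => exact Conn.refl (nin _ (Conn.refl h1))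
  | tail hb hs ih => exact ih.step hs.1 (nin _ (Conn.step ⟨h1, hb⟩ hs.1 hs.2))

theorem pf_REL {C : Type} (hCTR : CTR C) : REL C := by
  intro M M' U U' r p a a' v v' hbf hl hz hv hva hU hU'
  have hPI : PI M M' p := bf_PI hbf
  have hva' : v' ∉ a' := ctr_not_mem hPI hl hz hv hva
  have hvU : v ∈ U := hU (Conn.refl hva)
  have hvU' : v' ∈ U' := hU' (Conn.refl hva')
  refine bf_restrict (s := om) hU hU' (p0 := (v, v') :: a.zip a') ?_ ?_ hbf
  · intro x hx x' hx' h
    constructor
    · intro hxc
      have h1 := hCTR M M' U U' _ a a' v v' x x' h hl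
        (fun z hz => List.mem_cons_of_mem _ (List.mem_cons_of_mem _ hz))
        (List.mem_cons_of_mem _ List.mem_cons_self) List.mem_cons_self hvU' hx'
        (rel_inside hU hxc)
      exact h1.mono (fun y hy => Or.inr hy)
    · intro hxc
      have h2 := bf_symm h
      have e : List.map Prod.swap ((x, x') :: (v, v') :: a.zip a') =
          (x', x) :: (v', v) :: a'.zip a := by
        simp only [List.map_cons, Prod.swap_prod_mk, swap_zip]
      rw [e] at h2
      have h1 := hCTR M' M U' U _ a' a v' v x' x h2 hl.symm
        (fun z hz => List.mem_cons_of_mem _ (List.mem_cons_of_mem _ hz))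
        (List.mem_cons_of_mem _ List.mem_cons_self) List.mem_cons_self hvU hx
        (rel_inside hU' hxc)
      exact h1.mono (fun y hy => Or.inr hy)
  · intro z hz'
    rcases List.mem_cons.1 hz' with rfl | h
    · exact hv
    · exact hz z h

end Pool.Agent.TK
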