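import Pool.Agent.H16.TK.Stmt2

/-!
The direction of the replaced structure.
-/

set_option autoImplicit false

open Set

namespace Pool.Agent.TK

lemma ldd_exists_disj {E : ℕ → Set ℕ} (hE : Antitone E) (h : ∀ v, ∃ n, v ∉ E n) {B : Set ℕ}
    (hB : B.Finite) : ∃ n, Disjoint B (E n) := by
  choose f hf using h
  refine ⟨hB.toFinset.sup f, ?_⟩
  rw [Set.disjoint_left]
  intro x hx hxE
  exact hf x (hE (Finset.le_sup (hB.mem_toFinset.2 hx)) hxE)

theorem pf_LDD {C : Type} [MeasurableSpace C] {c0 : C} (hDIR : DIR C c0) (hNFA : NFA C c0)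
    (hLRF : LRF C c0) : LDD C c0 := by
  intro b X M w A S k a D R r H y
  have hVM : Valid c0 M := H.hyp.val M H.hM
  obtain ⟨hN1, hN2, hN3⟩ := hNFA M hVM w (Dm M w) A S H.cs
  obtain ⟨hL1, hL2, hL3⟩ := hLRF b X M w A S k a D R r H y
  have hbf : bf M (repl c0 M a D R y) univ univ b [] := hL3 [] (by simp)
  have hVN : Valid c0 (repl c0 M a D R y) := H.hyp.val _ (H.hyp.cl M H.hM _ hbf)
  have hanti : Antitone (fun n => w (A n)) :=
    antitone_nat_of_succ_le (fun n => (hN1 n).2.2.2.2.2.2.1)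
  obtain ⟨w', hw', hw2⟩ := hDIR (repl c0 M a D R y) hVN (fun n => w (A n))
    (fun n => (hN1 n).2.2.2.2.2.2.1) (fun n => (hL1 n).cd hVN) (by
      rw [Set.eq_empty_iff_forall_notMem]
      intro v hv
      obtain ⟨n, hn⟩ := hN3 v
      exact hn (Set.mem_iInter.1 hv n))
  have hfin : ∀ n, (A n).Finite := fun n => (hN1 n).1
  have heq : ∀ n, w' (A n) = w (A n) := by
    intro n
    obtain ⟨x, hx⟩ := (hL1 n).nonempty
    have hsub := hw2 (A n) (hfin n) n (hL1 n).disj.symm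
    exact IsCp.eq_of_inter hVN (hw'.1 (A n) (hfin n)) (hL1 n) (hsub hx) hx
  refine ⟨w', hw', hw2, heq, ?_⟩
  apply Set.Subset.antisymm
  · intro v hv
    by_contra hvP
    have hex : ∃ n, v ∉ w (A (n + 1)) ∧ v ∉ S n := by
      obtain ⟨n0, hn0⟩ := hN3 v
      by_cases hS : v ∈ S n0
      · refine ⟨n0 + 1, fun h => hn0 (hanti (by omega : n0 ≤ n0 + 1 + 1) h), fun h => ?_⟩
        exact Set.disjoint_left.1 (hN2 n0 (n0 + 1) (by omega)) hS h
      · exact ⟨n0, fun h => hn0 (hanti (by omega : n0 ≤ n0 + 1) h), hS⟩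
    obtain ⟨n, hn, hnS⟩ := hex
    have hBf : (A (n + 1) ∪ {v}).Finite := (hfin (n + 1)).union (Set.finite_singleton v)
    have h1 : v ∈ Nb (repl c0 M a D R y) (w' (A (n + 1) ∪ {v})) :=
      hv (A (n + 1) ∪ {v}) hBf (Or.inr rfl)
    have hd : Disjoint (A (n + 1) ∪ {v}) (w (A (n + 1))) := by
      rw [Set.disjoint_union_left]
      exact ⟨(hL1 (n + 1)).disj.symm, Set.disjoint_singleton_left.2 hn⟩
    have h2 : w' (A (n + 1) ∪ {v}) = w (A (n + 1)) := by
      apply Set.Subset.antisymm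
      · rw [← heq (n + 1)]
        exact hw'.2 _ _ hBf Set.subset_union_left
      · exact hw2 _ hBf (n + 1) hd
    rw [h2, hL2 (n + 1)] at h1
    have h3 : v ∈ S n := by
      rw [← (hN1 n).2.2.2.2.2.2.2.2.1]
      exact ⟨h1, hvP⟩
    exact hnS h3
  · intro p hp B hB hpB
    obtain ⟨n, hn⟩ := ldd_exists_disj hanti hN3 hB
    refine ⟨fun h => Set.disjoint_left.1 (hw'.1 B hB).disj h hpB, ?_⟩
    have h1 : p ∈ Nb M (w (A n)) := hp (A n) (hfin n) ((hN1 n).2.1 hp)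
    rw [← hL2 n] at h1
    obtain ⟨_, s, hs, hps⟩ := h1
    exact ⟨s, hw2 B hB n hn hs, hps⟩

end Pool.Agent.TK
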